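import Pool.Agent.U156.OS.Mot

/-!
# One-sided criteria for the continuation of the L-functions of motives

`M` is a Chow motive over `ℚ`, `i` an integer, `ℓ = (ℓ_p)` a choice of primes `ℓ_p ≠ p`.  Let `D` be the dimension of
`H^i(M)` and `F p` a complex `D × D` matrix which is the action of the geometric Frobenius at `p` on the inertia invariants (for an
embedding of the algebraic closure of `ℚ_{ℓ_p}` into `ℂ`), filled up with zeros.  Then `L_p^i(M, s) = det (1 - p^{-s} F p)⁻¹`, and for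
some `B` the eigenvalues of all `F p` are at most `p^B` in absolute value.  The theorem is about all Euler products of this kind; nothing
about the motive is used but this bound for the eigenvalues.

Let `a > B + 1` be a point of the half-line of absolute convergence.  The numbers

  `A_n(a, c) = ∑_{k=1}^{n} C(n-1, k-1) (2(a-c))^k L^{(k)}(a) / k!`, `A_0 = L(a)`

are given by the traces of Frobenius: with `P_n(t) = ∑_{k=1}^{n} C(n-1, k-1) (-t)^k / k!` (Laguerre polynomials) and

  `ℓ_n(a, c) = ∑_p ∑_{k ≥ 1} (tr (F_p^k) / k) p^{-ka} P_n(2(a-c) k log p)`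

one has `n A_n = ∑_{k=1}^{n} k ℓ_k A_{n-k}`.  The theorem says that `L` extends holomorphically to `Re s > c` if and only if the real
parts and the imaginary parts of the `A_n(a, c)` have subexponential bounds from one side each, and meromorphically if and only if
certain finite real combinations of the `A_{n-j}(a, c)` have such bounds.  No bound for the growth of the continuation, for the number of
poles, or from the other side is assumed.
-/

set_option autoImplicit false

open Filter Topology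

namespace Pool.Agent.Results.MP_148101_nt.OneSidedMotives

/-- The Euler product `L(s) = ∏_p det (1 - p^{-s} F_p)⁻¹`. -/
noncomputable def motivicL {D : ℕ} (F : Nat.Primes → Matrix (Fin D) (Fin D) ℂ) (s : ℂ) : ℂ :=
  ∏' p : Nat.Primes, ((1 - ((p : ℕ) : ℂ) ^ (-s) • F p).det)⁻¹

/-- `L` extends from `Re s > e` to a holomorphic function on `Re s > c`. -/
def HolomorphicTo (L : ℂ → ℂ) (e c : ℝ) : Prop :=
  ∃ g : ℂ → ℂ, DifferentiableOn ℂ g {s : ℂ | c < s.re} ∧ ∀ s : ℂ, e < s.re → g s = L s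

/-- `L` extends from `Re s > e` to a meromorphic function on `Re s > c`. -/
def MeromorphicTo (L : ℂ → ℂ) (e c : ℝ) : Prop :=
  ∃ g : ℂ → ℂ, MeromorphicOn g {s : ℂ | c < s.re} ∧ ∀ s : ℂ, e < s.re → g s = L s

/-- `A_n(a, c) = ∑_{k=1}^{n} C(n-1, k-1) (2(a-c))^k L^{(k)}(a) / k!`, `A_0(a, c) = L(a)`. -/
noncomputable def A (L : ℂ → ℂ) (a c : ℝ) (n : ℕ) : ℂ :=
  if n = 0 then L a else
    ∑ k ∈ Finset.range n, ((n - 1).choose k : ℂ) * ((2 * (a - c) : ℝ) : ℂ) ^ (k + 1) *
      (iteratedDeriv (k + 1) L a / ((k + 1).factorial : ℂ))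

/-- The Laguerre weight `P_n(t) = ∑_{k=1}^{n} C(n-1, k-1) (-t)^k / k!`, `P_0 = 1`. -/
noncomputable def P (n : ℕ) (t : ℝ) : ℝ :=
  if n = 0 then 1 else ∑ k ∈ Finset.range n, ((n - 1).choose k : ℝ) * ((-t) ^ (k + 1) / (k + 1).factorial)

/-- The terms of `ℓ_n(a, c) = ∑_p ∑_{k ≥ 1} (tr (F_p^k) / k) p^{-ka} P_n(2(a-c) k log p)`; here `k = x.2 + 1`. -/
noncomputable def traceTerm {D : ℕ} (F : Nat.Primes → Matrix (Fin D) (Fin D) ℂ) (a c : ℝ) (n : ℕ) (x : Nat.Primes × ℕ) : ℂ :=
  ((F x.1 ^ (x.2 + 1)).trace / ((x.2 : ℂ) + 1)) *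
    (((((x.1 : ℕ) : ℝ) ^ (-(((x.2 : ℝ) + 1) * a)) * P n (2 * (a - c) * (((x.2 : ℝ) + 1) * Real.log (x.1 : ℕ))) : ℝ)) : ℂ)

/-- `x_n ≥ - exp(o(n))` or `x_n ≤ exp(o(n))`. -/
def OneSided (x : ℕ → ℝ) : Prop :=
  (∀ ε : ℝ, 0 < ε → ∃ C : ℝ, ∀ n : ℕ, -(C * Real.exp (ε * n)) ≤ x n) ∨
    ∀ ε : ℝ, 0 < ε → ∃ C : ℝ, ∀ n : ℕ, x n ≤ C * Real.exp (ε * n)

/-- For each `ε > 0` there is a nonzero real polynomial `p` such that `∑_j p_j x_{n-j} ≥ - C exp(ε n)` for all `n`. -/
def OneSidedCombinations (x : ℕ → ℝ) : Prop :=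
  ∀ ε : ℝ, 0 < ε → ∃ p : Polynomial ℝ, p ≠ 0 ∧ ∃ C : ℝ, ∀ n : ℕ,
    -(C * Real.exp (ε * n)) ≤ ∑ q ∈ Finset.HasAntidiagonal.antidiagonal n, p.coeff q.1 * x q.2

/-- **One-sided criteria for L-functions of motives.**  Let `F p`, `p` prime, be complex `D × D` matrices with eigenvalues of absolute
value at most `p^B`, let `L` be the Euler product and `a > B + 1`.

1. The product converges for `Re s > B + 1` to a holomorphic function without zeros, for `c < a` the double series `ℓ_n(a, c)` converge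
absolutely, and `(n+1) A_{n+1} = ∑_{j+k=n} (j+1) ℓ_{j+1} A_k`.
2. For `c < B + 1`, `L` extends holomorphically to `Re s > c` if and only if the real parts and the imaginary parts of the `A_n(a, c)`
satisfy one-sided subexponential bounds, and meromorphically if and only if both have one-sided subexponential combinations.
3. `L` extends to an entire function if and only if the one-sided bounds hold for `c = B, B-1, B-2, ...`, and to a meromorphic function on
`ℂ` if and only if the conditions on the combinations hold for these `c`. -/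
theorem result {D : ℕ} (F : Nat.Primes → Matrix (Fin D) (Fin D) ℂ) (B : ℝ)
    (hF : ∀ (p : Nat.Primes) (μ : ℂ), (F p).charpoly.IsRoot μ → ‖μ‖ ≤ ((p : ℕ) : ℝ) ^ B) (a : ℝ) (ha : B + 1 < a) :
    (DifferentiableOn ℂ (motivicL F) {s : ℂ | B + 1 < s.re} ∧
      (∀ s : ℂ, B + 1 < s.re →
        HasProd (fun p : Nat.Primes => ((1 - ((p : ℕ) : ℂ) ^ (-s) • F p).det)⁻¹) (motivicL F s) ∧ motivicL F s ≠ 0) ∧
      ∀ c : ℝ, c < a → (∀ n : ℕ, Summable (traceTerm F a c n)) ∧
        ∀ n : ℕ, ((n : ℂ) + 1) * A (motivicL F) a c (n + 1) =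
          ∑ q ∈ Finset.HasAntidiagonal.antidiagonal n,
            (((q.1 : ℂ) + 1) * ∑' x, traceTerm F a c (q.1 + 1) x) * A (motivicL F) a c q.2) ∧
    (∀ c : ℝ, c < B + 1 →
      (HolomorphicTo (motivicL F) (B + 1) c ↔
        OneSided (fun n => (A (motivicL F) a c n).re) ∧ OneSided (fun n => (A (motivicL F) a c n).im)) ∧
      (MeromorphicTo (motivicL F) (B + 1) c ↔
        OneSidedCombinations (fun n => (A (motivicL F) a c n).re) ∧
          OneSidedCombinations (fun n => (A (motivicL F) a c n).im))) ∧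
    ((∃ g : ℂ → ℂ, Differentiable ℂ g ∧ ∀ s : ℂ, B + 1 < s.re → g s = motivicL F s) ↔ ∀ k : ℕ,
      OneSided (fun n => (A (motivicL F) a (B - k) n).re) ∧ OneSided (fun n => (A (motivicL F) a (B - k) n).im)) ∧
    ((∃ g : ℂ → ℂ, MeromorphicOn g Set.univ ∧ ∀ s : ℂ, B + 1 < s.re → g s = motivicL F s) ↔ ∀ k : ℕ,
      OneSidedCombinations (fun n => (A (motivicL F) a (B - k) n).re) ∧
        OneSidedCombinations (fun n => (A (motivicL F) a (B - k) n).im)) := by
  have hL : motivicL F = Pool.Agent.U156.OS.ML F := rfl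
  obtain ⟨hd, hprod, hell⟩ := Pool.Agent.U156.OS.ML_facts hF
  have hA : ∀ c : ℝ, A (motivicL F) a c =
      Pool.Agent.U156.OS.compC (Pool.Agent.U156.OS.tc (Pool.Agent.U156.OS.ML F) a) (2 * (a - c)) := by
    intro c
    funext n
    rw [hL]
    unfold A Pool.Agent.U156.OS.compC Pool.Agent.U156.OS.tc
    split_ifs
    · simp
    · refine Finset.sum_congr rfl fun k _ => ?_
      rw [div_eq_inv_mul]
  have hre : ∀ c : ℝ, (fun n => (A (motivicL F) a c n).re) = Pool.Agent.U156.OS.Are (Pool.Agent.U156.OS.ML F) a c := by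
    intro c
    funext n
    rw [hA, Pool.Agent.U156.OS.compC_re]
    rfl
  have him : ∀ c : ℝ, (fun n => (A (motivicL F) a c n).im) = Pool.Agent.U156.OS.Aim (Pool.Agent.U156.OS.ML F) a c := by
    intro c
    funext n
    rw [hA, Pool.Agent.U156.OS.compC_im]
    rfl
  have hall := Pool.Agent.U156.OS.all_cplx hd ha (c := fun k : ℕ => B - k) (fun k => by
    have : (0 : ℝ) ≤ k := Nat.cast_nonneg k
    linarith) (fun x => by
    obtain ⟨k, hk⟩ := exists_nat_gt (B - x)
    exact ⟨k, by linarith⟩)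
  refine ⟨⟨hd, fun s hs => hprod s hs, fun c hc => ⟨(hell a c ha hc).1, fun n => ?_⟩⟩, fun c hc => ⟨?_, ?_⟩, ?_, ?_⟩
  · rw [hA]
    exact (hell a c ha hc).2 n
  · rw [hre, him]
    exact (Pool.Agent.U156.OS.hol_cplx hd hc ha).1
  · rw [hre, him]
    exact (Pool.Agent.U156.OS.mer_cplx hd hc ha).1
  · simp only [hre, him]
    exact hall.1
  · simp only [hre, him]
    exact hall.2

end Pool.Agent.Results.MP_148101_nt.OneSidedMotives
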